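import Pool.Agent.Q50.CL.Odd
import Pool.Agent.Q50.CL.PowTwo

set_option autoImplicit false

namespace Pool.Agent.Results.MP_32f763_nt.ContinuedLogNotRegular

/-- The continued logarithm expansion `cl (p, q)` of `p / q`, for integers `p ≥ q ≥ 1` (for all
other pairs the list is taken to be empty). Here `k = ⌊log₂ ⌊p / q⌋⌋` is the integer with
`2 ^ k * q ≤ p < 2 ^ (k + 1) * q`, i.e. `1 ≤ p / (2 ^ k q) < 2`; see `cl_pow` and `cl_step`. -/
def cl (p q : ℕ) : List ℕ :=
  if h : 0 < q ∧ q ≤ p then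
    if h2 : p = 2 ^ Nat.log 2 (p / q) * q then [Nat.log 2 (p / q)]
    else Nat.log 2 (p / q) ::
      cl (2 ^ Nat.log 2 (p / q) * q) (p - 2 ^ Nat.log 2 (p / q) * q)
  else []
termination_by p
decreasing_by
  have h3 : 2 ^ Nat.log 2 (p / q) ≤ p / q :=
    Nat.pow_log_le_self 2 (Nat.div_pos h.2 h.1).ne'
  have h4 : 2 ^ Nat.log 2 (p / q) * q ≤ p :=
    (Nat.mul_le_mul_right q h3).trans (Nat.div_mul_le_self p q)
  omega

/-- `L n` is the length of `cl (n, 1)`; in particular `L 0 = 0`. -/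
def L (n : ℕ) : ℕ := (cl n 1).length

/-- The `k`-kernel of an integer sequence. -/
def kernel (k : ℕ) (a : ℕ → ℤ) : Set (ℕ → ℤ) :=
  {b | ∃ e r : ℕ, r < k ^ e ∧ b = fun n => a (k ^ e * n + r)}

/-- `a` is `k`-regular: the `ℤ`-module generated by its `k`-kernel is finitely generated. -/
def IsRegular (k : ℕ) (a : ℕ → ℤ) : Prop := (Submodule.span ℤ (kernel k a)).FG

theorem cl_eq (p : ℕ) : ∀ q, cl p q = Pool.Agent.Q50.CL.cl p q := by
  induction p using Nat.strong_induction_on with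
  | _ p ih =>
    intro q
    rw [cl, Pool.Agent.Q50.CL.cl]
    by_cases h : 0 < q ∧ q ≤ p
    · rw [dif_pos h, dif_pos h]
      by_cases h2 : p = 2 ^ Nat.log 2 (p / q) * q
      · rw [dif_pos h2, dif_pos h2]
      · rw [dif_neg h2, dif_neg h2]
        have h3 : 2 ^ Nat.log 2 (p / q) ≤ p / q :=
          Nat.pow_log_le_self 2 (Nat.div_pos h.2 h.1).ne'
        have h4 : 2 ^ Nat.log 2 (p / q) * q ≤ p :=
          (Nat.mul_le_mul_right q h3).trans (Nat.div_mul_le_self p q)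
        rw [ih _ (by omega)]
    · rw [dif_neg h, dif_neg h]

theorem L_eq (n : ℕ) : L n = Pool.Agent.Q50.CL.L n := by
  unfold L Pool.Agent.Q50.CL.L Pool.Agent.Q50.CL.len
  rw [cl_eq]

/-- first rule of the algorithm -/
theorem cl_pow (k q : ℕ) (hq : 1 ≤ q) : cl (2 ^ k * q) q = [k] := by
  rw [cl_eq]; exact Pool.Agent.Q50.CL.cl_pow k q hq

/-- second rule of the algorithm -/
theorem cl_step (k p q : ℕ) (h1 : 2 ^ k * q < p) (h2 : p < 2 * (2 ^ k * q)) :
    cl p q = k :: cl (2 ^ k * q) (p - 2 ^ k * q) := by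
  rw [cl_eq, cl_eq]
  have := Pool.Agent.Q50.CL.cl_step k q (p - 2 ^ k * q) (by omega) (by omega)
  rwa [Nat.add_sub_cancel' h1.le] at this

/-- **Main result.** `cl` obeys the two rules that define it, and for every `k ≥ 2` the sequence
`(L n)` of the lengths of the continued logarithms of the integers is not `k`-regular. -/
theorem result :
    ((∀ k q : ℕ, 1 ≤ q → cl (2 ^ k * q) q = [k]) ∧
      (∀ k p q : ℕ, 2 ^ k * q < p → p < 2 * (2 ^ k * q) →
        cl p q = k :: cl (2 ^ k * q) (p - 2 ^ k * q))) ∧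
    ∀ k : ℕ, 2 ≤ k → ¬ IsRegular k (fun n => (L n : ℤ)) := by
  refine ⟨⟨cl_pow, cl_step⟩, fun k hk hreg => ?_⟩
  have hL : (fun n => (L n : ℤ)) = fun n => (Pool.Agent.Q50.CL.L n : ℤ) := by
    funext n; rw [L_eq]
  rw [hL] at hreg
  obtain ⟨s, m, hm, rfl⟩ := Nat.exists_eq_two_pow_mul_odd (n := k) (by omega)
  by_cases h1 : m = 1
  · subst h1
    rw [mul_one] at hreg hk
    have hs : 1 ≤ s := by
      rcases Nat.eq_zero_or_pos s with h | h
      · rw [h] at hk; norm_num at hk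
      · exact h
    exact Pool.Agent.Q50.CL.not_fg_pow_two s hs hreg
  · have h3 : 3 ≤ m := by
      obtain ⟨w, hw⟩ := hm
      omega
    refine Pool.Agent.Q50.CL.not_fg_odd m hm h3 _ hreg (fun e r hr => ?_)
    apply Submodule.subset_span
    refine ⟨e, (2 ^ s) ^ e * r, ?_, ?_⟩
    · rw [mul_pow]
      exact Nat.mul_lt_mul_of_pos_left hr (by positivity)
    · funext n
      have h2 : (2 ^ s * m) ^ e * n + (2 ^ s) ^ e * r = 2 ^ (s * e) * (m ^ e * n + r) := by
        rw [mul_pow, pow_mul]; ring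
      rw [h2]
      show (Pool.Agent.Q50.CL.L (m ^ e * n + r) : ℤ) =
        (Pool.Agent.Q50.CL.L (2 ^ (s * e) * (m ^ e * n + r)) : ℤ)
      rw [Pool.Agent.Q50.CL.L_pow_mul]

end Pool.Agent.Results.MP_32f763_nt.ContinuedLogNotRegular
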